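import Pool.Agent.H523.ZG.Stm

set_option autoImplicit false
set_option linter.unusedSectionVars false

/-! # ZG R and V (helper118): Rankin's bound, and the correlations of the model -/

namespace Pool.Agent.H118.ZG

open Polynomial Finset
open Pool.Agent.H341R2.Sharp (Mon mem_Mon)
open Pool.Agent.H523.FF (Ir mem_Ir PL mem_PL card_PL two_le_card IrLE mem_IrLE)
open Pool.Agent.H523.CM
open Pool.Agent.H523.ZG (S_R S_V)

open scoped Classical

theorem mainR : S_R := by
  intro F _ _ T r hr
  have hq2 := two_le_card (F := F)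
  have hq0 : (0 : ℝ) < (Fintype.card F : ℝ) := by
    have : (0 : ℕ) < Fintype.card F := Fintype.card_pos
    exact_mod_cast this
  have hq1 : (1 : ℝ) ≤ (Fintype.card F : ℝ) := by
    have : (1 : ℕ) ≤ Fintype.card F := Fintype.card_pos
    exact_mod_cast this
  have hmem : ∀ s ∈ SF F r \ SF F T, (∀ P ∈ s, P.Monic ∧ Irreducible P) ∧
      (∑ P ∈ s, P.natDegree ≤ r) ∧ T < ∑ P ∈ s, P.natDegree := by
    intro s hs
    rw [mem_sdiff, mem_SF] at hs
    refine ⟨hs.1.1, hs.1.2, ?_⟩
    by_contra hcon
    exact hs.2 (mem_SF.mpr ⟨hs.1.1, not_lt.1 hcon⟩)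
  have hterm : ∀ s ∈ SF F r \ SF F T, (2 : ℝ) ^ s.card * ∏ P ∈ s, gP P ^ 2 ≤
      (∏ P ∈ s, (2 * (gP P * (1 + gP P)))) / (Fintype.card F : ℝ) ^ T := by
    intro s hs
    obtain ⟨hP, -, hT⟩ := hmem s hs
    rw [le_div_iff₀ (by positivity)]
    have h1 : (2 : ℝ) ^ s.card * ∏ P ∈ s, gP P ^ 2 = ∏ P ∈ s, (2 * gP P ^ 2) := by
      rw [prod_mul_distrib, prod_const]
    have h2 : ∀ P ∈ s, 2 * (gP P * (1 + gP P)) =
        (2 * gP P ^ 2) * (Fintype.card F : ℝ) ^ P.natDegree := by
      intro P hPs
      have h3 := gP_eq (hP P hPs).2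
      have h4 : (Fintype.card F : ℝ) ^ P.natDegree ≠ 0 := by positivity
      rw [eq_div_iff h4] at h3
      rw [← h3]
      ring
    have h3 : ∏ P ∈ s, (2 * (gP P * (1 + gP P))) =
        (∏ P ∈ s, (2 * gP P ^ 2)) * (Fintype.card F : ℝ) ^ (∑ P ∈ s, P.natDegree) := by
      rw [prod_congr rfl h2, prod_mul_distrib, prod_pow_eq_pow_sum]
    rw [h1, h3]
    refine mul_le_mul_of_nonneg_left (pow_le_pow_right₀ hq1 hT.le) ?_
    exact prod_nonneg fun P _ => by positivity
  calc ∑ s ∈ SF F r \ SF F T, ((2 : ℝ) ^ s.card * ∏ P ∈ s, gP P ^ 2)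
      ≤ ∑ s ∈ SF F r \ SF F T, (∏ P ∈ s, (2 * (gP P * (1 + gP P)))) /
          (Fintype.card F : ℝ) ^ T := sum_le_sum hterm
    _ = (∑ s ∈ SF F r \ SF F T, ∏ P ∈ s, (2 * (gP P * (1 + gP P)))) /
          (Fintype.card F : ℝ) ^ T := by rw [sum_div]
    _ ≤ (Real.exp 3 * r) ^ 4 / (Fintype.card F : ℝ) ^ T := by
        refine div_le_div_of_nonneg_right ?_ (by positivity)
        have hnn : ∀ P : F[X], Irreducible P → 0 ≤ 2 * (gP P * (1 + gP P)) := by
          intro P hP
          have := (gP_pos hP).le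
          positivity
        calc ∑ s ∈ SF F r \ SF F T, ∏ P ∈ s, (2 * (gP P * (1 + gP P)))
            ≤ ∑ s ∈ (IrLE F r).powerset, ∏ P ∈ s, (2 * (gP P * (1 + gP P))) := by
              refine sum_le_sum_of_subset_of_nonneg ?_ ?_
              · intro s hs
                obtain ⟨hP, hd, -⟩ := hmem s hs
                rw [mem_powerset]
                intro P hPs
                rw [mem_IrLE]
                refine ⟨(hP P hPs).1, (hP P hPs).2, ?_⟩
                exact (single_le_sum (f := fun P : F[X] => P.natDegree)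
                  (fun _ _ => Nat.zero_le _) hPs).trans hd
              · intro s hs _
                exact prod_nonneg fun P hP => hnn P (mem_IrLE.mp (mem_powerset.mp hs hP)).2.1
          _ = ∏ P ∈ IrLE F r, (1 + 2 * (gP P * (1 + gP P))) := by rw [prod_one_add]
          _ ≤ (∏ P ∈ IrLE F r, (1 + gP P)) ^ 4 := by
              rw [← prod_pow]
              refine prod_le_prod (fun P hP => ?_) fun P hP => ?_
              · have := hnn P (mem_IrLE.mp hP).2.1
                linarith
              · have h1 := (gP_pos (mem_IrLE.mp hP).2.1).le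
                have h2 : (1 + gP P) ^ 4 = 1 + 2 * (gP P * (1 + gP P)) +
                    (2 * gP P + 4 * gP P ^ 2 + 4 * gP P ^ 3 + gP P ^ 4) := by ring
                have h3 : 0 ≤ 2 * gP P + 4 * gP P ^ 2 + 4 * gP P ^ 3 + gP P ^ 4 := by positivity
                linarith
          _ ≤ (Real.exp 3 * r) ^ 4 := by
              refine pow_le_pow_left₀ ?_ (mertens (F := F) (by omega)) 4
              exact prod_nonneg fun P hP => by
                have := (gP_pos (mem_IrLE.mp hP).2.1).le
                positivity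

theorem mainV : S_V := by
  intro F _ _ n r 𝒮 B hsub hr
  obtain ⟨α, hα'⟩ : ∃ α : F, α = 1 := ⟨_, rfl⟩
  obtain ⟨β, hβ'⟩ : ∃ β : F, β = -1 := ⟨_, rfl⟩
  have hα : α ≠ 0 := by rw [hα']; exact one_ne_zero
  have hβ : β ≠ 0 := by rw [hβ']; exact neg_ne_zero.2 one_ne_zero
  have h0 : ∀ f : F[X], f - B = conj2 α β B f := by
    intro f
    rw [hα', hβ', conj2_sub]
  simp only [h0]
  rw [sum_Mon_eq n (fun f => LS 𝒮 f * LS 𝒮 (conj2 α β B f))]
  have h1 : ∀ x : F[X], LS 𝒮 x * LS 𝒮 (conj2 α β B x) = ∑ s ∈ 𝒮, ∑ t ∈ 𝒮,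
      (∏ P ∈ s, aP P x) * (∏ P ∈ t, aP P (conj2 α β B x)) := by
    intro x
    unfold LS
    rw [sum_mul_sum]
  simp only [h1]
  rw [sum_comm]
  rw [mul_sum]
  refine sum_congr rfl (fun s hs => ?_)
  rw [sum_comm]
  have hs' := mem_SF.mp (hsub hs)
  have h2 : ∀ t ∈ 𝒮, ∑ g ∈ PL F n, (∏ P ∈ s, aP P (X ^ n + g)) *
      (∏ P ∈ t, aP P (conj2 α β B (X ^ n + g))) =
      if s = t then (Fintype.card F : ℝ) ^ n * ∏ P ∈ s, cB P B else 0 := by
    intro t ht
    have ht' := mem_SF.mp (hsub ht)
    have hm : ∑ P ∈ s ∪ t, P.natDegree ≤ n := by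
      have h5 := sum_union_inter (s₁ := s) (s₂ := t) (f := fun P : F[X] => P.natDegree)
      omega
    set φ : F[X] → F[X] → ℝ := fun P x => (if P ∈ s then aP P x else 1) *
      (if P ∈ t then aP P (conj2 α β B x) else 1) with hφ
    have hu : ∀ P ∈ s ∪ t, P.Monic ∧ Irreducible P := by
      intro P hP
      rcases mem_union.mp hP with h | h
      · exact hs'.1 P h
      · exact ht'.1 P h
    have h3 : ∀ x : F[X], (∏ P ∈ s, aP P x) * (∏ P ∈ t, aP P (conj2 α β B x)) =
        ∏ P ∈ s ∪ t, φ P x := by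
      intro x
      rw [hφ, prod_mul_distrib]
      congr 1
      · rw [prod_ite_mem]
        rw [union_inter_cancel_left]
      · rw [prod_ite_mem]
        rw [union_inter_cancel_right]
    simp only [h3]
    have hconj : ∀ P x y : F[X], P ∣ x - y → aP P (conj2 α β B x) = aP P (conj2 α β B y) := by
      intro P x y hxy
      apply aP_periodic
      have : conj2 α β B x - conj2 α β B y = (C β⁻¹ * C (-α)) * (x - y) := by
        unfold conj2
        rw [C_neg]
        ring
      rw [this]
      exact hxy.mul_left _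
    rw [independence hu hm φ (by
      intro P _ x y hxy
      simp only [hφ, aP_periodic hxy, hconj P x y hxy]) (X ^ n)]
    split_ifs with h
    · subst h
      rw [union_self]
      rw [union_self] at hm
      have h4 : ∀ P ∈ s, ∑ b ∈ PL F P.natDegree, φ P b = (Fintype.card F : ℝ) ^ P.natDegree *
          cB P B := by
        intro P hP
        simp only [hφ, if_pos hP]
        exact local_binary (hs'.1 P hP).1 (hs'.1 P hP).2 hα hβ B
      rw [prod_congr rfl h4, prod_mul_distrib, prod_pow_eq_pow_sum]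
      push_cast
      rw [← mul_assoc, ← pow_add, Nat.sub_add_cancel hm]
    · -- some prime is in exactly one of the sets
      have h5 : ∃ P ∈ s ∪ t, ∑ b ∈ PL F P.natDegree, φ P b = 0 := by
        have : ∃ P, ¬ (P ∈ s ↔ P ∈ t) := by
          by_contra hcon
          push Not at hcon
          exact h (Finset.ext hcon)
        obtain ⟨P, hP⟩ := this
        by_cases hPs : P ∈ s
        · have hPt : P ∉ t := fun h' => hP ⟨fun _ => h', fun _ => hPs⟩
          refine ⟨P, mem_union_left _ hPs, ?_⟩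
          simp only [hφ, if_pos hPs, if_neg hPt, mul_one]
          exact sum_aP (hs'.1 P hPs).1 (hs'.1 P hPs).2
        · have hPt : P ∈ t := by
            by_contra hPt
            exact hP ⟨fun h' => absurd h' hPs, fun h' => absurd h' hPt⟩
          refine ⟨P, mem_union_right _ hPt, ?_⟩
          simp only [hφ, if_neg hPs, if_pos hPt, one_mul]
          have h6 : ¬ P ∣ C (-α) := by
            intro h
            have hu : IsUnit (C (-α) : F[X]) :=
              isUnit_C.mpr (isUnit_iff_ne_zero.mpr (neg_ne_zero.mpr hα))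
            exact (ht'.1 P hPt).2.not_isUnit (isUnit_of_dvd_unit h hu)
          rw [← sum_aP_affine (ht'.1 P hPt).1 (ht'.1 P hPt).2 h6 B]
          refine sum_congr rfl (fun b _ => ?_)
          unfold conj2
          rw [aP_unit (inv_ne_zero hβ)]
          congr 1
          rw [C_neg]
          ring
      obtain ⟨P, hP, h6⟩ := h5
      rw [prod_eq_zero hP h6, mul_zero]
  rw [sum_congr rfl h2, sum_ite_eq, if_pos hs]

end Pool.Agent.H118.ZG
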